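import Pool.Agent.Helper54.Hopf.Mod

/-!
# MP_b0f484_al: the explicit form of the main theorem

One law, derived length at most `5`, every rank `n ≥ 8`.
-/

set_option autoImplicit false

open scoped commutatorElement

namespace Pool.Agent.Helper54.Hopf

open SD

/-! ### One law for derived length at most `d` -/

/-- The values of the word `w` in `G`. -/
def vals (G : Type*) [Group G] (w : FreeGroup ℕ) : Set G :=
  {g | ∃ φ : FreeGroup ℕ →* G, φ w = g}

theorem conjugatesOfSet_vals (G : Type*) [Group G] (w : FreeGroup ℕ) :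
    Group.conjugatesOfSet (vals G w) ⊆ vals G w := by
  intro x hx
  obtain ⟨a, ⟨φ, rfl⟩, hc⟩ := Group.mem_conjugatesOfSet_iff.1 hx
  obtain ⟨c, rfl⟩ := isConj_iff.1 hc
  exact ⟨(MulAut.conj c).toMonoidHom.comp φ, by simp⟩

/-- The iterated commutator word. -/
def dw : ℕ → FreeGroup ℕ
  | 0 => FreeGroup.of 0
  | d + 1 => ⁅emb 0 (dw d), emb 1 (dw d)⁆

theorem dw_mem (d : ℕ) : dw d ∈ derivedSeries (FreeGroup ℕ) d := by
  induction d with
  | zero => simp
  | succ d ih =>
    rw [derivedSeries_succ]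
    exact Subgroup.commutator_mem_commutator
      (map_derivedSeries_le_derivedSeries (emb 0) d (Subgroup.mem_map_of_mem _ ih))
      (map_derivedSeries_le_derivedSeries (emb 1) d (Subgroup.mem_map_of_mem _ ih))

theorem commutator_closure_le {G : Type*} [Group G] (S : Set G) (N : Subgroup G) [N.Normal]
    (h : ∀ a ∈ S, ∀ b ∈ S, ⁅a, b⁆ ∈ N) :
    ⁅Subgroup.closure S, Subgroup.closure S⁆ ≤ N := by
  have hm : ∀ a b : G, ⁅a, b⁆ ∈ N ↔
      a ∈ (Subgroup.centralizer {QuotientGroup.mk' N b}).comap (QuotientGroup.mk' N) := by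
    intro a b
    rw [Subgroup.mem_comap, Subgroup.mem_centralizer_singleton_iff,
      ← commutatorElement_eq_one_iff_mul_comm, ← map_commutatorElement,
      ← MonoidHom.mem_ker, QuotientGroup.ker_mk']
  have hs : ∀ a b : G, ⁅a, b⁆ ∈ N ↔ ⁅b, a⁆ ∈ N := by
    intro a b
    rw [← commutatorElement_inv a b, Subgroup.inv_mem_iff]
  have key : ∀ b ∈ S, ∀ a ∈ Subgroup.closure S, ⁅a, b⁆ ∈ N := by
    intro b hb a ha
    rw [hm]
    refine (Subgroup.closure_le _).2 ?_ ha
    intro c hc
    exact (hm c b).1 (h c hc b hb)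
  rw [Subgroup.commutator_le]
  intro a ha b hb
  rw [hs, hm]
  refine (Subgroup.closure_le _).2 ?_ hb
  intro c hc
  exact (hm c a).1 ((hs _ _).1 (key c hc a ha))

theorem derivedSeries_le_vals (G : Type*) [Group G] (d : ℕ) :
    derivedSeries G d ≤ Subgroup.normalClosure (vals G (dw d)) := by
  induction d with
  | zero =>
    intro g _
    exact Subgroup.subset_normalClosure ⟨FreeGroup.lift (fun _ => g), by simp [dw]⟩
  | succ d ih =>
    have h1 : derivedSeries G d ≤ Subgroup.closure (vals G (dw d)) :=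
      ih.trans (Subgroup.closure_mono (conjugatesOfSet_vals G _))
    rw [derivedSeries_succ]
    refine (Subgroup.commutator_mono h1 h1).trans (commutator_closure_le _ _ ?_)
    rintro _ ⟨φ₀, rfl⟩ _ ⟨φ₁, rfl⟩
    obtain ⟨φ, e₀, e₁⟩ := exists_common φ₀ φ₁
    exact Subgroup.subset_normalClosure ⟨φ, by rw [dw, map_commutatorElement, e₀, e₁]⟩

theorem dw_iff (G : Type*) [Group G] (d : ℕ) :
    (∀ φ : FreeGroup ℕ →* G, φ (dw d) = 1) ↔ derivedSeries G d = ⊥ := by
  constructor
  · intro h
    rw [eq_bot_iff]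
    refine (derivedSeries_le_vals G d).trans (Subgroup.normalClosure_le_normal ?_)
    rintro _ ⟨φ, rfl⟩
    exact h φ
  · intro h φ
    have h1 : φ (dw d) ∈ derivedSeries G d :=
      map_derivedSeries_le_derivedSeries φ d (Subgroup.mem_map_of_mem _ (dw_mem d))
    rw [h, Subgroup.mem_bot] at h1
    exact h1

/-! ### The second law -/

/-- The law `U(V(t))₀ = t₀`. -/
def ew : FreeGroup ℕ :=
  (FreeGroup.of 0)⁻¹ * uU (vV (fun i : Fin 8 => FreeGroup.of (i : ℕ))) 0

theorem map_ew {G : Type*} [Group G] (φ : FreeGroup ℕ →* G) :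
    φ ew = (φ (FreeGroup.of 0))⁻¹ * uU (vV (fun i : Fin 8 => φ (FreeGroup.of (i : ℕ)))) 0 := by
  rw [ew, map_mul, map_inv, ← map_vV φ, ← map_uU φ]

theorem ew_iff (G : Type*) [Group G] :
    (∀ φ : FreeGroup ℕ →* G, φ ew = 1) ↔ ∀ t : Fin 8 → G, uU (vV t) 0 = t 0 := by
  constructor
  · intro h t
    have h1 := h (FreeGroup.lift (fun k => if h : k < 8 then t ⟨k, h⟩ else 1))
    rw [map_ew] at h1
    have h2 : (fun i : Fin 8 => (FreeGroup.lift (fun k => if h : k < 8 then t ⟨k, h⟩ else 1))
        (FreeGroup.of (i : ℕ))) = t := by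
      funext i
      simp
    rw [h2, inv_mul_eq_one, FreeGroup.lift_apply_of, dif_pos (by norm_num)] at h1
    exact h1.symm
  · intro h φ
    rw [map_ew, h, inv_mul_eq_one]
    rfl

/-! ### The single law -/

/-- The law. -/
def lw : FreeGroup ℕ := emb 0 (dw 5) * emb 1 ew

theorem lw_iff (G : Type*) [Group G] :
    (∀ φ : FreeGroup ℕ →* G, φ lw = 1) ↔
      derivedSeries G 5 = ⊥ ∧ ∀ t : Fin 8 → G, uU (vV t) 0 = t 0 := by
  rw [← dw_iff, ← ew_iff]
  constructor
  · intro h
    constructor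
    · intro φ₀
      obtain ⟨φ, e₀, e₁⟩ := exists_common φ₀ 1
      have h1 := h φ
      rw [lw, map_mul, e₀, e₁, MonoidHom.one_apply, mul_one] at h1
      exact h1
    · intro φ₁
      obtain ⟨φ, e₀, e₁⟩ := exists_common 1 φ₁
      have h1 := h φ
      rw [lw, map_mul, e₀, e₁, MonoidHom.one_apply, one_mul] at h1
      exact h1
  · rintro ⟨h0, h1⟩ φ
    rw [lw, map_mul]
    have h2 := h0 (φ.comp (emb 0))
    have h3 := h1 (φ.comp (emb 1))
    rw [MonoidHom.comp_apply] at h2 h3
    rw [h2, h3, one_mul]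

/-! ### The group `T` -/

section Facts

variable {Γ M : Type} [Group Γ] [AddCommGroup M] [DistribMulAction Γ M]

theorem vV_eq (hlaw : ∀ t : Fin 8 → Γ, om t = 1) (t : Fin 8 → SD Γ M) :
    vV t = Function.update t 0
      (io (ws (fun i => (t i).g) • (om t).m - (om t).m) * t 0) := by
  have hg : (om t).g = 1 := by
    have h1 : (om t).g = om (fun i => (t i).g) := map_om (pr Γ M) t
    rw [h1, hlaw]
  have hsg : (ws t).g = ws (fun i => (t i).g) := map_ws (pr Γ M) t
  rw [vV, eq_io hg, cm_io_right, hsg, io_m]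

theorem vV_g (hlaw : ∀ t : Fin 8 → Γ, om t = 1) (t : Fin 8 → SD Γ M) :
    (fun i => (vV t i).g) = fun i => (t i).g := by
  funext i
  rw [vV_eq hlaw]
  by_cases hi : i = 0
  · subst hi
    simp
  · rw [Function.update_of_ne hi]

theorem uU_vV (hlaw : ∀ t : Fin 8 → Γ, om t = 1)
    (hdd : ∀ (t : Fin 8 → Γ) (m : M), dM M t (dM M t m) = dM M t m)
    (hds : ∀ (t : Fin 8 → Γ) (m : M), dM M t (ws t • dM M t m) = ws t • dM M t m)
    (t : Fin 8 → SD Γ M) : uU (vV t) = t := by
  have hg : (om t).g = 1 := by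
    have h1 : (om t).g = om (fun i => (t i).g) := map_om (pr Γ M) t
    rw [h1, hlaw]
  have hsg : (ws t).g = ws (fun i => (t i).g) := map_ws (pr Γ M) t
  have hV := vV_eq hlaw t
  have h1 : om (vV t) = io (dM M (fun i => (t i).g)
      (ws (fun i => (t i).g) • (om t).m - (om t).m) + (om t).m) := by
    rw [hV, om_update hlaw]
  have h2 : th (vV t) (om (vV t)) = io (om t).m := by
    rw [h1, th_io, vV_g hlaw, tM_spec _ (hdd _) (hds _)]
  have h3 : ws (vV t) = ws t := by rw [vV, ws_update]
  rw [uU, h2, h3, cm_io_right, io_inv, hsg]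
  rw [hV, Function.update_self, ← mul_assoc, io_mul, Function.update_idem]
  have h4 : (-(ws (fun i => (t i).g) • (om t).m - (om t).m) +
      (ws (fun i => (t i).g) • (om t).m - (om t).m)) = 0 := by abel
  rw [h4]
  have h5 : (io (0 : M) : SD Γ M) = 1 := rfl
  rw [h5, one_mul, Function.update_eq_self]

theorem vV_not_surj (hlaw : ∀ t : Fin 8 → Γ, om t = 1)
    (hns : ∃ (t : Fin 8 → Γ) (m₀ : M), t 0 = 1 ∧
      ∀ m : M, m + (ws t • dM M t m - dM M t m) ≠ m₀) :
    ∃ t₀ : Fin 8 → SD Γ M, ∀ t : Fin 8 → SD Γ M, vV t ≠ t₀ := by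
  obtain ⟨t, m₀, ht, hm₀⟩ := hns
  refine ⟨fun i => if i = 0 then io m₀ else ⟨0, t i⟩, ?_⟩
  intro t' ht'
  have hg' : ∀ i, (t' i).g = t i := by
    intro i
    have h1 := congrFun (vV_g hlaw t') i
    have h2 := congrFun ht' i
    rw [← h1, h2]
    by_cases hi : i = 0
    · subst hi
      simp [ht]
    · simp [hi]
  have hgf : (fun i => (t' i).g) = t := funext hg'
  have h0 : t' 0 = io (t' 0).m := eq_io (by rw [hg', ht])
  have h1 : t' = Function.update (Function.update t' 0 1) 0
      (io (t' 0).m * (Function.update t' 0 1) 0) := by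
    rw [Function.update_idem, Function.update_self, mul_one, ← h0, Function.update_eq_self]
  have h2 : om t' = io (dM M t (t' 0).m) := by
    rw [h1, om_update hlaw]
    have h3 : (fun i => ((Function.update t' 0 1 : Fin 8 → SD Γ M) i).g) = t := by
      funext i
      by_cases hi : i = 0
      · subst hi
        simp [ht]
      · rw [Function.update_of_ne hi, hg']
    have h4 : om (Function.update t' 0 1) = 1 := by
      rw [om, wW_update, Function.update_self]
      simp [cm]
    rw [h3, h4, one_m, add_zero]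
    rw [← h1]
  apply hm₀ (t' 0).m
  have h5 := congrFun ht' 0
  rw [vV_eq hlaw, Function.update_self, hgf, h2, io_m, if_pos rfl, h0, io_mul, io_m] at h5
  have h6 := congrArg SD.m h5
  rw [io_m, io_m] at h6
  rw [← h6, add_comm]

end Facts

/-- The group `T` satisfies the law. -/
theorem T_lw : ∀ φ : FreeGroup ℕ →* SD Ga Msub, φ lw = 1 := by
  rw [lw_iff]
  refine ⟨derivedSeries_succ_eq_bot 4 Ga.derivedSeries_four, ?_⟩
  intro t
  exact congrFun (uU_vV Ga.om_eq_one dM_dM dM_ws t) 0

theorem T_not_surj : ∃ t₀ : Fin 8 → SD Ga Msub, ∀ t : Fin 8 → SD Ga Msub, vV t ≠ t₀ :=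
  vV_not_surj Ga.om_eq_one ⟨t₀, m₀, rfl, not_surj⟩

/-! ### The relatively free groups -/

/-- The verbal subgroup of the set of laws `L`. -/
abbrev verb (L : Set (FreeGroup ℕ)) (n : ℕ) : Subgroup (FreeGroup (Fin n)) :=
  Subgroup.normalClosure
    {x : FreeGroup (Fin n) | ∃ w ∈ L, ∃ φ : FreeGroup ℕ →* FreeGroup (Fin n), φ w = x}

theorem verb_le_comap (L : Set (FreeGroup ℕ)) (n : ℕ)
    (u : FreeGroup (Fin n) →* FreeGroup (Fin n)) : verb L n ≤ (verb L n).comap u := by
  apply Subgroup.normalClosure_le_normal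
  rintro _ ⟨w, hw, φ, rfl⟩
  exact Subgroup.subset_normalClosure ⟨w, hw, u.comp φ, rfl⟩

theorem verb_le_ker (L : Set (FreeGroup ℕ)) (n : ℕ) {T : Type*} [Group T]
    (hT : ∀ w ∈ L, ∀ φ : FreeGroup ℕ →* T, φ w = 1) (t : FreeGroup (Fin n) →* T) :
    verb L n ≤ t.ker := by
  apply Subgroup.normalClosure_le_normal
  rintro _ ⟨w, hw, φ, rfl⟩
  exact hT w hw (t.comp φ)

theorem quot_law (L : Set (FreeGroup ℕ)) (n : ℕ) (w : FreeGroup ℕ) (hw : w ∈ L)
    (φ : FreeGroup ℕ →* FreeGroup (Fin n) ⧸ verb L n) : φ w = 1 := by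
  choose s hs using QuotientGroup.mk_surjective (s := verb L n)
  have h1 : φ = (QuotientGroup.mk' (verb L n)).comp
      (FreeGroup.lift (fun k => s (φ (FreeGroup.of k)))) := by
    apply FreeGroup.ext_hom
    intro k
    rw [MonoidHom.comp_apply, FreeGroup.lift_apply_of]
    exact (hs _).symm
  rw [h1, MonoidHom.comp_apply, ← MonoidHom.mem_ker, QuotientGroup.ker_mk']
  exact Subgroup.subset_normalClosure ⟨w, hw, _, rfl⟩

/-- **The explicit form.** -/
theorem explicit (n : ℕ) (hn : 8 ≤ n) :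
    ∃ f : (FreeGroup (Fin n) ⧸ verb {lw} n) →* (FreeGroup (Fin n) ⧸ verb {lw} n),
      Function.Surjective f ∧ ¬ Function.Injective f := by
  classical
  set j : Fin 8 → Fin n := Fin.castLE hn with hj
  have hji : Function.Injective j := Fin.castLE_injective hn
  set N := verb {lw} n with hN
  set x : Fin 8 → FreeGroup (Fin n) := fun i => FreeGroup.of (j i) with hx
  set v : FreeGroup (Fin n) →* FreeGroup (Fin n) :=
    FreeGroup.lift (Function.update FreeGroup.of (j 0) (vV x 0)) with hv
  set u : FreeGroup (Fin n) →* FreeGroup (Fin n) :=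
    FreeGroup.lift (Function.update FreeGroup.of (j 0) (uU x 0)) with hu
  have hvx : (fun i => v (x i)) = vV x := by
    funext i
    rw [hx, hv, FreeGroup.lift_apply_of]
    by_cases hi : i = 0
    · subst hi
      rw [Function.update_self]
    · rw [Function.update_of_ne (fun h => hi (hji h)), vV, Function.update_of_ne hi]
  have hvu : ∀ y, QuotientGroup.mk' N (v (u y)) = QuotientGroup.mk' N y := by
    have h1 : (QuotientGroup.mk' N).comp (v.comp u) = QuotientGroup.mk' N := by
      apply FreeGroup.ext_hom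
      intro i
      rw [MonoidHom.comp_apply, MonoidHom.comp_apply, hu, FreeGroup.lift_apply_of]
      by_cases hi : i = j 0
      · subst hi
        rw [Function.update_self]
        have h2 : v (uU x 0) = uU (vV x) 0 := by
          have h3 := congrFun (map_uU v x) 0
          rw [hvx] at h3
          exact h3
        rw [h2]
        have h4 : ∀ φ : FreeGroup ℕ →* FreeGroup (Fin n) ⧸ N, φ lw = 1 :=
          fun φ => quot_law {lw} n lw rfl φ
        have h5 := ((lw_iff _).1 h4).2 (fun i => QuotientGroup.mk' N (x i))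
        rw [← map_vV (QuotientGroup.mk' N) x] at h5
        have h6 := congrFun (map_uU (QuotientGroup.mk' N) (vV x)) 0
        exact h6.trans h5
      · rw [Function.update_of_ne hi, hv, FreeGroup.lift_apply_of, Function.update_of_ne hi]
    intro y
    exact DFunLike.congr_fun h1 y
  refine ⟨QuotientGroup.map N N v (verb_le_comap {lw} n v), ?_, ?_⟩
  · intro y
    obtain ⟨y, rfl⟩ := QuotientGroup.mk_surjective y
    exact ⟨QuotientGroup.mk (u y), hvu y⟩
  · intro hinj
    obtain ⟨s, hs⟩ := T_not_surj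
    have huv : ∀ y, QuotientGroup.mk' N (u (v y)) = QuotientGroup.mk' N y := by
      intro y
      apply hinj
      exact hvu (v y)
    have hker : ∀ (t : FreeGroup (Fin n) →* SD Ga Msub) (y : FreeGroup (Fin n)),
        t (u (v y)) = t y := by
      intro t y
      have h1 : (u (v y))⁻¹ * y ∈ N := QuotientGroup.eq.1 (huv y)
      have h2 : (u (v y))⁻¹ * y ∈ t.ker :=
        verb_le_ker {lw} n (by rintro w rfl φ; exact T_lw φ) t h1
      rw [MonoidHom.mem_ker, map_mul, map_inv, inv_mul_eq_one] at h2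
      exact h2
    set t : FreeGroup (Fin n) →* SD Ga Msub :=
      FreeGroup.lift (fun i => if h : (i : ℕ) < 8 then s ⟨i, h⟩ else 1) with ht
    have htx : ∀ i, t (x i) = s i := by
      intro i
      rw [hx, ht, FreeGroup.lift_apply_of]
      simp [hj]
    apply hs (fun i => t (u (x i)))
    have h1 : (fun i => (t.comp u) (vV x i)) = vV (fun i => (t.comp u) (x i)) :=
      map_vV (t.comp u) x
    have h2 : vV (fun i => t (u (x i))) = fun i => t (u (vV x i)) := h1.symm
    rw [h2]
    funext i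
    have h3 : vV x i = v (x i) := (congrFun hvx i).symm
    rw [h3, hker, htx]

end Pool.Agent.Helper54.Hopf
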