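import Pool.Agent.Helper54.Hopf.Lamp

/-!
# MP_b0f484_al: the permutation module `B` and the bilinear form
-/

set_option autoImplicit false

namespace Pool.Agent.Helper54.Hopf

/-- The set on which `K` acts. -/
abbrev Om := Q × Fin 3

/-- The permutation module. -/
abbrev B := Om →₀ ZMod 2

/-- The action of `K` on points. -/
noncomputable def pt (k : K) (p : Om) : Om := (k.q + sh k.l p.1, k.e p.2)

theorem pt_one (p : Om) : pt 1 p = p := by
  simp [pt]

theorem pt_mul (k k' : K) (p : Om) : pt (k * k') p = pt k (pt k' p) := by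
  simp only [pt, K.mul_q, K.mul_l, K.mul_e, sh_add, sh_sh, add_assoc, Equiv.Perm.mul_apply]

/-- The action of `K` on `B`. -/
noncomputable def ak (k : K) : B →ₗ[ZMod 2] B := Finsupp.lmapDomain (ZMod 2) (ZMod 2) (pt k)

theorem ak_single (k : K) (p : Om) (c : ZMod 2) :
    ak k (Finsupp.single p c) = Finsupp.single (pt k p) c := by
  simp [ak]

theorem ak_one (a : B) : ak 1 a = a := by
  have h1 : pt 1 = id := funext pt_one
  rw [ak, h1, Finsupp.lmapDomain_id]
  rfl

theorem ak_mul (k k' : K) (a : B) : ak (k * k') a = ak k (ak k' a) := by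
  have h1 : pt (k * k') = pt k ∘ pt k' := funext (pt_mul k k')
  rw [ak, h1, Finsupp.lmapDomain_comp]
  rfl

open Classical in
/-- The matrix of `ζ`. -/
noncomputable def cc (p p' : Om) : ZMod 2 :=
  if p.2 = 0 ∧ p'.2 = 0 ∧ WellOrderingRel p.1 p'.1 then xi (p.1 + p'.1) else 0

/-- The form `ζ`. -/
noncomputable def zeta : B →ₗ[ZMod 2] B →ₗ[ZMod 2] ZMod 2 :=
  Finsupp.linearCombination (ZMod 2)
    (fun p => Finsupp.linearCombination (ZMod 2) (fun p' => cc p p'))

/-- The matrix of the symmetrized form. -/
noncomputable def bb (p p' : Om) : ZMod 2 :=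
  if p.2 = 0 ∧ p'.2 = 0 then xi (p.1 + p'.1) else 0

/-- The symmetrized form. -/
noncomputable def bil : B →ₗ[ZMod 2] B →ₗ[ZMod 2] ZMod 2 :=
  Finsupp.linearCombination (ZMod 2)
    (fun p => Finsupp.linearCombination (ZMod 2) (fun p' => bb p p'))

theorem zeta_single (p p' : Om) (c c' : ZMod 2) :
    zeta (Finsupp.single p c) (Finsupp.single p' c') = c * c' * cc p p' := by
  simp [zeta, mul_assoc]

theorem bil_single (p p' : Om) (c c' : ZMod 2) :
    bil (Finsupp.single p c) (Finsupp.single p' c') = c * c' * bb p p' := by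
  simp [bil, mul_assoc]

theorem cc_add (p p' : Om) : cc p p' + cc p' p = bb p p' := by
  unfold cc bb
  by_cases h1 : p.2 = 0
  · by_cases h2 : p'.2 = 0
    · rcases trichotomous_of WellOrderingRel p.1 p'.1 with h | h | h
      · have h3 : ¬ WellOrderingRel p'.1 p.1 := asymm h
        simp [h1, h2, h, h3]
      · rw [h]
        have h3 : ¬ WellOrderingRel p'.1 p'.1 := irrefl _
        simp [h1, h2, h3, q_add_self, xi_zero]
      · have h3 : ¬ WellOrderingRel p.1 p'.1 := asymm h
        simp [h1, h2, h, h3, add_comm]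
    · simp [h2]
  · simp [h1]

theorem zeta_add (a a' : B) : zeta a a' + zeta a' a = bil a a' := by
  have h1 : zeta + zeta.flip = bil := by
    apply Finsupp.lhom_ext'
    intro p
    apply LinearMap.ext_ring
    apply Finsupp.lhom_ext'
    intro p'
    apply LinearMap.ext_ring
    simp only [LinearMap.comp_apply, LinearMap.add_apply, Finsupp.lsingle_apply,
      LinearMap.flip_apply, zeta_single, bil_single, one_mul, cc_add]
  rw [← h1]
  rfl

/-- The functional `ε_i`. -/
noncomputable def eps (i : Fin 3) : B →ₗ[ZMod 2] ZMod 2 :=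
  Finsupp.linearCombination (ZMod 2) (fun p => if p.2 = i then 1 else 0)

theorem eps_single (i : Fin 3) (p : Om) (c : ZMod 2) :
    eps i (Finsupp.single p c) = if p.2 = i then c else 0 := by
  simp [eps]

theorem eps_ak (i : Fin 3) (k : K) (a : B) : eps i (ak k a) = eps (k.e⁻¹ i) a := by
  have h1 : (eps i).comp (ak k) = eps (k.e⁻¹ i) := by
    apply Finsupp.lhom_ext'
    intro p
    apply LinearMap.ext_ring
    simp only [LinearMap.comp_apply, Finsupp.lsingle_apply, ak_single, eps_single, pt]
    congr 1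
    rw [Equiv.Perm.eq_inv_iff_eq]
  rw [← h1]
  rfl

/-- The cross terms cancel. -/
theorem cross (y : Q) (a a' : B) :
    bil a (ak ⟨y, 0, 1⟩ a') + bil a' (ak ⟨y, 0, 1⟩ a) = 0 := by
  have h1 : (bil.compl₂ (ak ⟨y, 0, 1⟩)) + (bil.compl₂ (ak ⟨y, 0, 1⟩)).flip = 0 := by
    apply Finsupp.lhom_ext'
    intro p
    apply LinearMap.ext_ring
    apply Finsupp.lhom_ext'
    intro p'
    apply LinearMap.ext_ring
    simp only [LinearMap.comp_apply, LinearMap.add_apply, Finsupp.lsingle_apply,
      LinearMap.flip_apply, LinearMap.compl₂_apply, ak_single, bil_single, one_mul,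
      LinearMap.zero_apply, bb, pt, sh_zero, Equiv.Perm.one_apply]
    have h2 : p.1 + (y + p'.1) = p'.1 + (y + p.1) := by abel
    by_cases h3 : p.2 = 0
    · by_cases h4 : p'.2 = 0
      · simp only [h3, h4, and_self, if_true, h2]
        exact CharTwo.add_self_eq_zero _
      · simp [h4]
    · simp [h3]
  have h2 := DFunLike.congr_fun (DFunLike.congr_fun h1 a) a'
  exact h2

/-- **The key identity.** -/
theorem key (y : Q) (a : B) : bil a (ak ⟨y, 0, 1⟩ a) = xi y * eps 0 a := by
  induction a using Finsupp.induction_linear with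
  | zero => simp
  | add a a' h h' =>
    have h1 := cross y a a'
    simp only [map_add, LinearMap.add_apply, h, h', mul_add]
    linear_combination h1
  | single p c =>
    rw [ak_single, bil_single, eps_single]
    have h2 : c * c = c := by
      revert c
      decide
    rw [h2]
    simp only [bb, pt, sh_zero, Equiv.Perm.one_apply, and_self]
    have h3 : p.1 + (y + p.1) = y := by
      have := q_add_self p.1
      calc p.1 + (y + p.1) = y + (p.1 + p.1) := by abel
        _ = y := by rw [this, add_zero]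
    rw [h3]
    by_cases h4 : p.2 = 0
    · simp [h4, mul_comm]
    · simp [h4]

theorem key' (y : Q) (a : B) :
    zeta a (ak ⟨y, 0, 1⟩ a) + zeta (ak ⟨y, 0, 1⟩ a) a = xi y * eps 0 a := by
  rw [zeta_add, key]

end Pool.Agent.Helper54.Hopf
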