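import Pool.Agent.Helper54.Hopf.Words

/-!
# MP_b0f484_al: the criterion for a semidirect product `M ⋊ Γ`
-/

set_option autoImplicit false
set_option linter.unusedSectionVars false

namespace Pool.Agent.Helper54.Hopf

/-- The semidirect product of a `Γ`-module `M` and `Γ`. -/
@[ext]
structure SD (Γ M : Type) where
  m : M
  g : Γ

namespace SD

variable {Γ M : Type} [Group Γ] [AddCommGroup M] [DistribMulAction Γ M]

instance : Mul (SD Γ M) := ⟨fun x y => ⟨x.m + x.g • y.m, x.g * y.g⟩⟩
instance : One (SD Γ M) := ⟨⟨0, 1⟩⟩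
instance : Inv (SD Γ M) := ⟨fun x => ⟨-(x.g⁻¹ • x.m), x.g⁻¹⟩⟩

@[simp] theorem mul_m (x y : SD Γ M) : (x * y).m = x.m + x.g • y.m := rfl
@[simp] theorem mul_g (x y : SD Γ M) : (x * y).g = x.g * y.g := rfl
@[simp] theorem one_m : (1 : SD Γ M).m = 0 := rfl
@[simp] theorem one_g : (1 : SD Γ M).g = 1 := rfl
@[simp] theorem inv_m (x : SD Γ M) : (x⁻¹).m = -(x.g⁻¹ • x.m) := rfl
@[simp] theorem inv_g (x : SD Γ M) : (x⁻¹).g = x.g⁻¹ := rfl

instance : Group (SD Γ M) :=
  Group.ofLeftAxioms
    (fun x y z => by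
      ext
      · simp only [mul_m, mul_g, smul_add, mul_smul, add_assoc]
      · simp only [mul_g, mul_assoc])
    (fun x => by
      ext
      · simp
      · simp)
    (fun x => by
      ext
      · simp
      · simp)

variable (Γ M) in
/-- The projection. -/
def pr : SD Γ M →* Γ where
  toFun := g
  map_one' := rfl
  map_mul' _ _ := rfl

/-- The inclusion of `M`. -/
def io (m : M) : SD Γ M := ⟨m, 1⟩

@[simp] theorem io_m (m : M) : (io m : SD Γ M).m = m := rfl
@[simp] theorem io_g (m : M) : (io m : SD Γ M).g = 1 := rfl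

theorem eq_io {x : SD Γ M} (h : x.g = 1) : x = io x.m := by
  ext
  · rfl
  · exact h

theorem io_mul (a b : M) : (io a * io b : SD Γ M) = io (a + b) := by
  ext
  · simp
  · simp

theorem io_inv (a : M) : ((io a)⁻¹ : SD Γ M) = io (-a) := by
  ext
  · simp
  · simp

theorem cm_m (x y : SD Γ M) : (cm x y).m =
    x.m + x.g • y.m - (x.g * y.g * x.g⁻¹) • x.m - (x.g * y.g * x.g⁻¹ * y.g⁻¹) • y.m := by
  simp only [cm, mul_m, mul_g, inv_m, inv_g, smul_neg, mul_smul]
  abel

theorem cm_g (x y : SD Γ M) : (cm x y).g = cm x.g y.g := rfl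

theorem cm_io_left (m : M) (y : SD Γ M) : cm (io m) y = io (m - y.g • m) := by
  ext
  · rw [cm_m]
    simp only [io_m, io_g, one_smul, one_mul, inv_one, mul_one, mul_inv_cancel]
    abel
  · simp [cm]

theorem cm_io_right (x : SD Γ M) (m : M) : cm x (io m) = io (x.g • m - m) := by
  ext
  · rw [cm_m]
    simp
  · simp [cm]

theorem conj_io (x : SD Γ M) (m : M) : x⁻¹ * io m * x = io (x.g⁻¹ • m) := by
  ext
  · simp
  · simp

theorem derivedSeries_succ_eq_bot (d : ℕ) (hd : derivedSeries Γ d = ⊥) :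
    derivedSeries (SD Γ M) (d + 1) = ⊥ := by
  rw [derivedSeries_succ, Subgroup.commutator_eq_bot_iff_le_centralizer]
  have h1 : ∀ x ∈ derivedSeries (SD Γ M) d, x.g = 1 := by
    intro x hx
    have h2 : pr Γ M x ∈ derivedSeries Γ d :=
      map_derivedSeries_le_derivedSeries (pr Γ M) d (Subgroup.mem_map_of_mem _ hx)
    rw [hd, Subgroup.mem_bot] at h2
    exact h2
  intro x hx
  rw [Subgroup.mem_centralizer_iff]
  intro y hy
  rw [eq_io (h1 x hx), eq_io (h1 y hy), io_mul, io_mul, add_comm]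

end SD

open SD

variable {Γ M : Type} [Group Γ] [AddCommGroup M] [DistribMulAction Γ M]

/-- The operator `δ` on the module. -/
def dM (M : Type) [AddCommGroup M] [DistribMulAction Γ M] (t : Fin 8 → Γ) : M →+ M where
  toFun m := (m - (t 0 * wW t * (t 0)⁻¹) • m) - wW t • (m - (t 0 * wW t * (t 0)⁻¹) • m)
  map_zero' := by simp
  map_add' a b := by
    simp only [smul_add, smul_sub]
    abel

theorem dM_apply (t : Fin 8 → Γ) (m : M) : dM M t m =
    (m - (t 0 * wW t * (t 0)⁻¹) • m) - wW t • (m - (t 0 * wW t * (t 0)⁻¹) • m) := rfl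

/-- The operator `β` on the module. -/
def bM (t : Fin 8 → Γ) (m : M) : M := dM M t ((ws t)⁻¹ • dM M t m) + m - dM M t m

/-- The operator `θ` on the module. -/
def tM (t : Fin 8 → Γ) (m : M) : M := m - dM M t (bM t (ws t • m - m))

theorem gg (t : Fin 8 → SD Γ M) (f : ∀ {G : Type} [Group G], (Fin 8 → G) → G)
    (hf : ∀ (w : SD Γ M →* Γ), w (f t) = f (fun i => w (t i))) :
    (f t).g = f (fun i => (t i).g) := hf (pr Γ M)

theorem dl_io (t : Fin 8 → SD Γ M) (m : M) :
    dl t (io m) = io (dM M (fun i => (t i).g) m) := by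
  have h1 : (wW t).g = wW (fun i => (t i).g) := map_wW (pr Γ M) t
  rw [dl, cm_io_left, cm_io_left, dM_apply]
  simp only [mul_g, inv_g, h1]

theorem be_io (t : Fin 8 → SD Γ M) (m : M) :
    be t (io m) = io (bM (fun i => (t i).g) m) := by
  have h1 : (ws t).g = ws (fun i => (t i).g) := map_ws (pr Γ M) t
  rw [be, dl_io, conj_io, dl_io, io_mul, io_inv, io_mul, h1, bM, sub_eq_add_neg]

theorem th_io (t : Fin 8 → SD Γ M) (m : M) :
    th t (io m) = io (tM (fun i => (t i).g) m) := by
  have h1 : (ws t).g = ws (fun i => (t i).g) := map_ws (pr Γ M) t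
  rw [th, cm_io_right, be_io, dl_io, io_inv, io_mul, h1, tM]
  exact congrArg io (sub_eq_add_neg m _).symm

/-- The effect on `ω` of a change of `Y` by an element of `M`. -/
theorem om_update (hlaw : ∀ t : Fin 8 → Γ, om t = 1) (t : Fin 8 → SD Γ M) (m : M) :
    om (Function.update t 0 (io m * t 0)) = io (dM M (fun i => (t i).g) m + (om t).m) := by
  have hg : ∀ t : Fin 8 → SD Γ M, (om t).g = 1 := by
    intro t
    have h1 : (om t).g = om (fun i => (t i).g) := map_om (pr Γ M) t
    rw [h1, hlaw]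
  have h1 : (wW t).g = wW (fun i => (t i).g) := map_wW (pr Γ M) t
  have h2 := hlaw (fun i => (t i).g)
  rw [om] at h2
  set y := (t 0).g with hy
  set w := wW (fun i => (t i).g) with hw
  have h3 : y * w * y⁻¹ * w⁻¹ * w * (y * w * y⁻¹ * w⁻¹)⁻¹ = w := by
    have h4 : cm (cm y w) w = cm y w * w * (cm y w)⁻¹ * w⁻¹ := rfl
    rw [h4, mul_inv_eq_one] at h2
    exact h2
  rw [eq_io (hg _)]
  congr 1
  rw [om, om, wW_update, Function.update_self, cm_m, cm_m, cm_m, cm_m, cm_g, cm_g]
  simp only [mul_m, mul_g, io_m, io_g, one_mul, one_smul, h1, ← hy, cm]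
  rw [h3, dM_apply]
  simp only [smul_add, smul_sub, ← hy, ← hw]
  abel

theorem tM_spec (t : Fin 8 → Γ) (hdd : ∀ m : M, dM M t (dM M t m) = dM M t m)
    (hds : ∀ m : M, dM M t (ws t • dM M t m) = ws t • dM M t m) (o : M) :
    tM t (dM M t (ws t • o - o) + o) = o := by
  have hb : ∀ m : M, bM t (m + (ws t • dM M t m - dM M t m)) = m := by
    intro m
    have h1 : dM M t (m + (ws t • dM M t m - dM M t m)) = ws t • dM M t m := by
      rw [map_add, map_sub, hds, hdd]
      abel
    rw [bM, h1, inv_smul_smul, hdd]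
    abel
  have h2 : ws t • (dM M t (ws t • o - o) + o) - (dM M t (ws t • o - o) + o) =
      (ws t • o - o) + (ws t • dM M t (ws t • o - o) - dM M t (ws t • o - o)) := by
    rw [smul_add]
    abel
  rw [tM, h2, hb]
  abel

/-- **The criterion.** -/
theorem criterion (d : ℕ) (hd : derivedSeries Γ d = ⊥)
    (hlaw : ∀ t : Fin 8 → Γ, om t = 1)
    (hdd : ∀ (t : Fin 8 → Γ) (m : M), dM M t (dM M t m) = dM M t m)
    (hds : ∀ (t : Fin 8 → Γ) (m : M), dM M t (ws t • dM M t m) = ws t • dM M t m)
    (hns : ∃ (t : Fin 8 → Γ) (m₀ : M), t 0 = 1 ∧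
      ∀ m : M, m + (ws t • dM M t m - dM M t m) ≠ m₀) :
    ∃ (L : Set (FreeGroup ℕ)) (d : ℕ),
      (∀ (G : Type) [Group G],
        (∀ w ∈ L, ∀ φ : FreeGroup ℕ →* G, φ w = 1) → derivedSeries G d = ⊥) ∧
      ∃ n : ℕ, ∃ f :
        (FreeGroup (Fin n) ⧸ Subgroup.normalClosure
          {x : FreeGroup (Fin n) | ∃ w ∈ L, ∃ φ : FreeGroup ℕ →* FreeGroup (Fin n), φ w = x}) →*
        (FreeGroup (Fin n) ⧸ Subgroup.normalClosure
          {x : FreeGroup (Fin n) | ∃ w ∈ L, ∃ φ : FreeGroup ℕ →* FreeGroup (Fin n), φ w = x}),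
        Function.Surjective f ∧ ¬ Function.Injective f := by
  have hg : ∀ t : Fin 8 → SD Γ M, (om t).g = 1 := by
    intro t
    have h1 : (om t).g = om (fun i => (t i).g) := map_om (pr Γ M) t
    rw [h1, hlaw]
  have hsg : ∀ t : Fin 8 → SD Γ M, (ws t).g = ws (fun i => (t i).g) :=
    fun t => map_ws (pr Γ M) t
  have hV : ∀ t : Fin 8 → SD Γ M, vV t = Function.update t 0
      (io (ws (fun i => (t i).g) • (om t).m - (om t).m) * t 0) := by
    intro t
    rw [vV, eq_io (hg t), cm_io_right, hsg, io_m]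
  have hVg : ∀ t : Fin 8 → SD Γ M, (fun i => (vV t i).g) = fun i => (t i).g := by
    intro t
    funext i
    rw [hV]
    by_cases hi : i = 0
    · subst hi
      simp
    · rw [Function.update_of_ne hi]
  refine exists_of_tuples (SD Γ M) (d + 1) (derivedSeries_succ_eq_bot d hd) ?_ ?_
  · intro t
    have h1 : om (vV t) = io (dM M (fun i => (t i).g)
        (ws (fun i => (t i).g) • (om t).m - (om t).m) + (om t).m) := by
      rw [hV, om_update hlaw]
    have h2 : th (vV t) (om (vV t)) = io (om t).m := by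
      rw [h1, th_io, hVg, tM_spec _ (hdd _) (hds _)]
    have h3 : ws (vV t) = ws t := by rw [vV, ws_update]
    rw [uU, h2, h3, cm_io_right, io_inv, hsg]
    rw [hV t, Function.update_self, ← mul_assoc, io_mul, Function.update_idem]
    have h4 : (-(ws (fun i => (t i).g) • (om t).m - (om t).m) +
        (ws (fun i => (t i).g) • (om t).m - (om t).m)) = 0 := by abel
    rw [h4]
    have h5 : (io (0 : M) : SD Γ M) = 1 := rfl
    rw [h5, one_mul, Function.update_eq_self]
  · obtain ⟨t, m₀, ht, hm₀⟩ := hns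
    refine ⟨fun i => if i = 0 then io m₀ else ⟨0, t i⟩, ?_⟩
    intro t' ht'
    have hg' : ∀ i, (t' i).g = t i := by
      intro i
      have h1 := congrFun (hVg t') i
      have h2 := congrFun ht' i
      rw [← h1, h2]
      by_cases hi : i = 0
      · subst hi
        simp [ht]
      · simp [hi]
    have hgf : (fun i => (t' i).g) = t := funext hg'
    have h0 : t' 0 = io (t' 0).m := eq_io (by rw [hg', ht])
    have h1 : t' = Function.update (Function.update t' 0 1) 0
        (io (t' 0).m * (Function.update t' 0 1) 0) := by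
      rw [Function.update_idem, Function.update_self, mul_one, ← h0, Function.update_eq_self]
    have h2 : om t' = io (dM M t (t' 0).m) := by
      rw [h1, om_update hlaw]
      have h3 : (fun i => ((Function.update t' 0 1 : Fin 8 → SD Γ M) i).g) = t := by
        funext i
        by_cases hi : i = 0
        · subst hi
          simp [ht]
        · rw [Function.update_of_ne hi, hg']
      have h4 : om (Function.update t' 0 1) = 1 := by
        rw [om, wW_update, Function.update_self]
        simp [cm]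
      rw [h3, h4, one_m, add_zero]
      rw [← h1]
    apply hm₀ (t' 0).m
    have h5 := congrFun ht' 0
    rw [hV, Function.update_self, hgf, h2, io_m, if_pos rfl, h0, io_mul, io_m] at h5
    have h6 := congrArg SD.m h5
    rw [io_m, io_m] at h6
    rw [← h6, add_comm]

end Pool.Agent.Helper54.Hopf
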