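import Pool.Agent.Helper54.Hopf.Form
import Pool.Agent.Helper54.Hopf.Semi

/-!
# MP_b0f484_al: the group `Γ` and the values of the words on it
-/

set_option autoImplicit false

namespace Pool.Agent.Helper54.Hopf

/-- The group `Γ = (B × (K → F₂)) ⋊ K`. -/
@[ext]
structure Ga where
  a : B
  c : K → ZMod 2
  k : K

namespace Ga

/-- The cocycle. -/
noncomputable def co (a a' : B) (j : K) : ZMod 2 := zeta (ak j⁻¹ a) (ak j⁻¹ a')

theorem co_add_left (a a' a'' : B) (j : K) : co (a + a') a'' j = co a a'' j + co a' a'' j := by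
  simp [co]

theorem co_add_right (a a' a'' : B) (j : K) : co a (a' + a'') j = co a a' j + co a a'' j := by
  simp [co]

@[simp] theorem co_zero_left (a : B) (j : K) : co 0 a j = 0 := by
  simp [co]

@[simp] theorem co_zero_right (a : B) (j : K) : co a 0 j = 0 := by
  simp [co]

@[simp] theorem co_neg_left (a a' : B) (j : K) : co (-a) a' j = -co a a' j := by
  simp [co]

@[simp] theorem co_neg_right (a a' : B) (j : K) : co a (-a') j = -co a a' j := by
  simp [co]

theorem co_ak (k : K) (a a' : B) (j : K) : co a a' (k⁻¹ * j) = co (ak k a) (ak k a') j := by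
  simp only [co, mul_inv_rev, inv_inv, ak_mul]

noncomputable instance : Mul Ga := ⟨fun x y =>
  ⟨x.a + ak x.k y.a, fun j => x.c j + y.c (x.k⁻¹ * j) + co x.a (ak x.k y.a) j, x.k * y.k⟩⟩
noncomputable instance : One Ga := ⟨⟨0, 0, 1⟩⟩
noncomputable instance : Inv Ga := ⟨fun x =>
  ⟨-ak x.k⁻¹ x.a, fun j => -x.c (x.k * j) + co (ak x.k⁻¹ x.a) (ak x.k⁻¹ x.a) j, x.k⁻¹⟩⟩

@[simp] theorem mul_a (x y : Ga) : (x * y).a = x.a + ak x.k y.a := rfl
@[simp] theorem mul_c (x y : Ga) (j : K) :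
    (x * y).c j = x.c j + y.c (x.k⁻¹ * j) + co x.a (ak x.k y.a) j := rfl
@[simp] theorem mul_k (x y : Ga) : (x * y).k = x.k * y.k := rfl
@[simp] theorem one_a : (1 : Ga).a = 0 := rfl
@[simp] theorem one_c (j : K) : (1 : Ga).c j = 0 := rfl
@[simp] theorem one_k : (1 : Ga).k = 1 := rfl
@[simp] theorem inv_a (x : Ga) : (x⁻¹).a = -ak x.k⁻¹ x.a := rfl
@[simp] theorem inv_c (x : Ga) (j : K) :
    (x⁻¹).c j = -x.c (x.k * j) + co (ak x.k⁻¹ x.a) (ak x.k⁻¹ x.a) j := rfl
@[simp] theorem inv_k (x : Ga) : (x⁻¹).k = x.k⁻¹ := rfl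

noncomputable instance : Group Ga :=
  Group.ofLeftAxioms
    (fun x y z => by
      apply Ga.ext
      · simp only [mul_a, mul_k, map_add, ak_mul, add_assoc]
      · funext j
        simp only [mul_c, mul_k, mul_a, map_add, ak_mul, co_add_left, co_add_right, co_ak,
          mul_inv_rev, mul_assoc]
        ring
      · simp only [mul_k, mul_assoc])
    (fun x => by
      apply Ga.ext
      · simp [ak_one]
      · funext j
        simp
      · simp)
    (fun x => by
      apply Ga.ext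
      · simp
      · funext j
        simp only [mul_c, inv_c, inv_k, inv_inv, inv_a, co_neg_left, one_c]
        ring
      · simp)

/-- The projection to `K`. -/
noncomputable def pk : Ga →* K where
  toFun := k
  map_one' := rfl
  map_mul' _ _ := rfl

/-- The central elements of `N`. -/
noncomputable def ce (c : K → ZMod 2) : Ga := ⟨0, c, 1⟩

theorem ce_comm (c c' : K → ZMod 2) : ce c * ce c' = ce c' * ce c := by
  apply Ga.ext
  · simp [ce]
  · funext j
    simp [ce, add_comm]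
  · simp [ce]

theorem ce_inv (c : K → ZMod 2) : (ce c)⁻¹ = ce c := by
  apply Ga.ext
  · simp [ce]
  · funext j
    simp [ce]
  · simp [ce]

theorem ce_mul (c c' : K → ZMod 2) : ce c * ce c' = ce (c + c') := by
  apply Ga.ext
  · simp [ce]
  · funext j
    simp [ce]
  · simp [ce]

theorem ce_mul' (c : K → ZMod 2) (x : Ga) : ce c * x = ⟨x.a, x.c + c, x.k⟩ := by
  apply Ga.ext
  · simp [ce, ak_one]
  · funext j
    simp [ce, add_comm]
  · simp [ce]

theorem conj_ce (y : Ga) (c : K → ZMod 2) :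
    y * ce c * y⁻¹ = ce (fun j => c (y.k⁻¹ * j)) := by
  rw [mul_inv_eq_iff_eq_mul, ce_mul']
  apply Ga.ext
  · simp [ce]
  · funext j
    simp [ce]
  · simp [ce]

theorem eq_ce {x : Ga} (ha : x.a = 0) (hk : x.k = 1) : x = ce x.c := by
  apply Ga.ext
  · exact ha
  · rfl
  · exact hk

/-- Commutators of elements of `N`. -/
theorem cm_N (x y : Ga) (hx : x.k = 1) (hy : y.k = 1) :
    cm x y = ce (fun j => co x.a y.a j + co y.a x.a j) := by
  rw [cm, mul_inv_eq_iff_eq_mul, mul_inv_eq_iff_eq_mul, mul_assoc, ce_mul']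
  apply Ga.ext
  · simp [hx, hy, ak_one, add_comm]
  · funext j
    simp only [mul_c, hx, hy, ak_one, inv_one, one_mul, Pi.add_apply]
    have : co y.a x.a j + co y.a x.a j = 0 := CharTwo.add_self_eq_zero _
    linear_combination -this
  · simp [hx, hy]

theorem derivedSeries_four : derivedSeries Ga 4 = ⊥ := by
  have h2 : ∀ x ∈ derivedSeries Ga 2, x.k = 1 := by
    intro x hx
    have h3 : pk x ∈ derivedSeries K 2 :=
      map_derivedSeries_le_derivedSeries pk 2 (Subgroup.mem_map_of_mem _ hx)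
    rw [K.derivedSeries_two, Subgroup.mem_bot] at h3
    exact h3
  let C : Subgroup Ga :=
    { carrier := Set.range ce
      mul_mem' := by
        rintro _ _ ⟨c, rfl⟩ ⟨c', rfl⟩
        exact ⟨c + c', (ce_mul c c').symm⟩
      one_mem' := ⟨0, rfl⟩
      inv_mem' := by
        rintro _ ⟨c, rfl⟩
        exact ⟨c, (ce_inv c).symm⟩ }
  have h3 : derivedSeries Ga 3 ≤ C := by
    rw [derivedSeries_succ, Subgroup.commutator_le]
    intro x hx y hy
    exact ⟨_, (cm_N x y (h2 x hx) (h2 y hy)).symm⟩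
  rw [derivedSeries_succ, Subgroup.commutator_eq_bot_iff_le_centralizer]
  intro x hx
  rw [Subgroup.mem_centralizer_iff]
  intro y hy
  obtain ⟨c, rfl⟩ := h3 hx
  obtain ⟨c', rfl⟩ := h3 hy
  exact ce_comm c' c

/-! ### Values of the words -/

theorem wa_k (t : Fin 8 → Ga) : (wa t).k = 1 := by
  have h1 : (wa t).k = wa (fun i => (t i).k) := map_wa pk t
  rw [h1, wa]
  have h2 : ∀ x y : K, (cm x y).l = 0 ∧ Equiv.Perm.sign (cm x y).e = 1 := by
    intro x y
    constructor
    · simp [cm]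
    · simp only [cm, K.mul_e, K.inv_e, map_mul, map_inv]
      rcases Int.units_eq_one_or (Equiv.Perm.sign x.e) with h | h <;>
      rcases Int.units_eq_one_or (Equiv.Perm.sign y.e) with h' | h' <;>
      simp [h, h']
  have h3 := K.comm_of (h2 (t 1).k (t 2).k).1 (h2 (t 3).k (t 4).k).1 (h2 (t 1).k (t 2).k).2
    (h2 (t 3).k (t 4).k).2
  rw [cm, h3]
  group

theorem wx_k (t : Fin 8 → Ga) : (wx t).k = ⟨(wx t).k.q, 0, 1⟩ := by
  have h1 : (wx t).k = wx (fun i => (t i).k) := map_wx pk t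
  have h2 : ∀ a b : Equiv.Perm (Fin 3), (a * b * a⁻¹ * b⁻¹) ^ 3 = 1 := by
    intro a b
    have h3 : ∀ c : Equiv.Perm (Fin 3), Equiv.Perm.sign c = 1 → c * c * c = 1 := by decide
    have h4 := h3 (a * b * a⁻¹ * b⁻¹) (by
      simp only [map_mul, map_inv]
      rcases Int.units_eq_one_or (Equiv.Perm.sign a) with h | h <;>
      rcases Int.units_eq_one_or (Equiv.Perm.sign b) with h' | h' <;>
      simp [h, h'])
    rw [← h4]
    simp only [pow_succ, pow_zero, one_mul]
  apply K.ext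
  · rfl
  · rw [h1]
    simp [wx, cm, pow_succ]
  · rw [h1]
    have := h2 (t 5).k.e (t 6).k.e
    simpa [wx, cm, pow_succ] using this

theorem ws_k (t : Fin 8 → Ga) : (ws t).k.l = 6 * (t 7).k.l ∧ (ws t).k.e = 1 := by
  have h1 : (ws t).k = ws (fun i => (t i).k) := map_ws pk t
  have h2 : ∀ a : Equiv.Perm (Fin 3), a ^ 6 = 1 := by
    intro a
    have h3 : Fintype.card (Equiv.Perm (Fin 3)) = 6 := by
      rw [Fintype.card_perm, Fintype.card_fin]
      rfl
    rw [← h3]
    exact pow_card_eq_one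
  constructor
  · rw [h1]
    simp only [ws, pow_succ, pow_zero, one_mul, K.mul_l]
    ring
  · rw [h1]
    have := h2 (t 7).k.e
    simpa [ws, pow_succ] using this

/-- The value of `x_*` in `Q`. -/
noncomputable def qs (t : Fin 8 → Ga) : Q :=
  (wx t).k.q + sh (6 * (t 7).k.l) (wx t).k.q + sh (18 * (t 7).k.l) (wx t).k.q

theorem conj_q (k : K) (q : Q) : k * ⟨q, 0, 1⟩ * k⁻¹ = ⟨sh k.l q, 0, 1⟩ := by
  apply K.ext
  · simp [sh_neg, sh_sh]
  · simp
  · simp

theorem wxs_k (t : Fin 8 → Ga) : (wxs t).k = ⟨qs t, 0, 1⟩ := by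
  have h1 : (wxs t).k = (wx t).k * ((ws t).k * (wx t).k * ((ws t).k)⁻¹) *
      (((ws t).k) ^ 3 * (wx t).k * (((ws t).k) ^ 3)⁻¹) := by
    simp only [wxs, pow_succ, pow_zero, one_mul, mul_k, inv_k]
  have h2 : (((ws t).k) ^ 3).l = 18 * (t 7).k.l := by
    simp only [pow_succ, pow_zero, one_mul, K.mul_l, (ws_k t).1]
    ring
  rw [h1, wx_k, conj_q, conj_q, h2, (ws_k t).1]
  apply K.ext
  · simp [qs]
  · simp
  · simp

/-- The value of `W`. -/
theorem wW_eq (t : Fin 8 → Ga) : wW t =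
    ce (fun j => xi (sh (-j.l) (qs t)) * eps (j.e 0) (wa t).a) := by
  have h1 : (wxs t * wa t * (wxs t)⁻¹).k = 1 := by
    rw [mul_k, mul_k, inv_k, wa_k, mul_one, mul_inv_cancel]
  have h2 : (wxs t * wa t * (wxs t)⁻¹).a = ak ⟨qs t, 0, 1⟩ (wa t).a := by
    simp only [mul_a, mul_k, inv_a, wa_k, mul_one, map_neg, ← ak_mul, mul_inv_cancel, ak_one,
      wxs_k]
    abel
  rw [wW, cm_N _ _ (wa_k t) h1, h2]
  refine congrArg ce (funext fun j => ?_)
  have h3 : ak j⁻¹ (ak ⟨qs t, 0, 1⟩ (wa t).a) =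
      ak ⟨sh (-j.l) (qs t), 0, 1⟩ (ak j⁻¹ (wa t).a) := by
    rw [← ak_mul, ← ak_mul]
    have := conj_q j⁻¹ (qs t)
    rw [inv_inv] at this
    exact DFunLike.congr_fun (congrArg ak (eq_mul_inv_of_mul_eq this)) _
  rw [co, co, h3, key', eps_ak]
  simp

/-- The law. -/
theorem om_eq_one (t : Fin 8 → Ga) : om t = 1 := by
  rw [om, wW_eq]
  set c := (fun j : K => xi (sh (-j.l) (qs t)) * eps (j.e 0) (wa t).a)
  have h1 : cm (t 0) (ce c) = ce ((fun j => c ((t 0).k⁻¹ * j)) + c) := by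
    rw [cm, conj_ce, ce_inv, ce_mul]
  rw [h1, cm, ce_comm]
  group

end Ga

end Pool.Agent.Helper54.Hopf
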