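import Mathlib

/-!
# MP_b0f484_al: the group `K = (C₂ ≀ ℤ) × S₃` and the pattern
-/

set_option autoImplicit false

namespace Pool.Agent.Helper54.Hopf

/-- The base group of the lamplighter group. -/
abbrev Q := ℤ →₀ ZMod 2

/-- The shift. -/
noncomputable def sh (l : ℤ) (x : Q) : Q := x.equivMapDomain (Equiv.addRight l)

@[simp] theorem sh_apply (l : ℤ) (x : Q) (n : ℤ) : sh l x n = x (n - l) := by
  simp [sh, sub_eq_add_neg]

@[simp] theorem sh_zero (x : Q) : sh 0 x = x := by
  ext n; simp

@[simp] theorem sh_map_zero (l : ℤ) : sh l 0 = 0 := by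
  ext n; simp

theorem sh_sh (l l' : ℤ) (x : Q) : sh l (sh l' x) = sh (l + l') x := by
  ext n
  simp only [sh_apply]
  congr 1
  ring

theorem sh_add (l : ℤ) (x y : Q) : sh l (x + y) = sh l x + sh l y := by
  ext n; simp

theorem sh_neg (l : ℤ) (x : Q) : sh l (-x) = -sh l x := by
  ext n; simp

theorem q_add_self (x : Q) : x + x = 0 := by
  ext n
  exact CharTwo.add_self_eq_zero (x n)

/-- The pattern. -/
noncomputable def pat : Q := Finsupp.indicator {0, 1, 6, 7, 18, 19} (fun _ _ => 1)

theorem pat_apply (n : ℤ) : pat n =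
    if n = 0 ∨ n = 1 ∨ n = 6 ∨ n = 7 ∨ n = 18 ∨ n = 19 then 1 else 0 := by
  rw [pat, Finsupp.indicator_apply]
  simp

open Classical in
/-- The function `ξ`. -/
noncomputable def xi (u : Q) : ZMod 2 := if ∃ i : ℤ, i ≤ 0 ∧ u = sh i pat then 1 else 0

theorem xi_zero : xi 0 = 0 := by
  rw [xi, if_neg]
  rintro ⟨i, -, h⟩
  have := DFunLike.congr_fun h i
  simp [pat_apply] at this

theorem xi_eq_one {u : Q} : xi u = 1 ↔ ∃ i : ℤ, i ≤ 0 ∧ u = sh i pat := by
  unfold xi
  split_ifs with h
  · simp [h]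
  · simp [h]

theorem xi_pat : xi pat = 1 := xi_eq_one.2 ⟨0, le_refl _, by simp⟩

theorem xi_sh_pat : xi (sh 6 pat) ≠ 1 := by
  rw [Ne, xi_eq_one]
  rintro ⟨i, hi, h⟩
  have := DFunLike.congr_fun h i
  simp only [sh_apply, pat_apply, sub_self, true_or, if_true] at this
  rw [if_neg (by omega)] at this
  exact zero_ne_one this

/-- **The pattern lemma.** -/
theorem pattern (x : Q) (N j : ℤ) (h : x + sh (6 * N) x + sh (18 * N) x = sh j pat) : 0 ≤ N := by
  by_contra hN
  push Not at hN
  have h1 : ∀ n, x n + x (n - 6 * N) + x (n - 18 * N) = pat (n - j) := by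
    intro n
    have := DFunLike.congr_fun h n
    simpa using this
  have hx : x.support.Nonempty := by
    rw [Finsupp.support_nonempty_iff]
    rintro rfl
    have := h1 j
    simp [pat_apply] at this
  obtain ⟨b, hb, hb'⟩ := Finset.exists_max_image x.support id hx
  obtain ⟨a, ha, ha'⟩ := Finset.exists_min_image x.support id hx
  simp only [id] at hb' ha'
  have hb0 : ∀ n, b < n → x n = 0 := by
    intro n hn
    by_contra hc
    have := hb' n (Finsupp.mem_support_iff.2 hc)
    omega
  have ha0 : ∀ n, n < a → x n = 0 := by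
    intro n hn
    by_contra hc
    have := ha' n (Finsupp.mem_support_iff.2 hc)
    omega
  have hab : a ≤ b := ha' b hb
  have hbne := Finsupp.mem_support_iff.1 hb
  have hane := Finsupp.mem_support_iff.1 ha
  -- the top
  have h2 : pat (b - j) ≠ 0 := by
    rw [← h1 b, hb0 (b - 6 * N) (by omega), hb0 (b - 18 * N) (by omega), add_zero, add_zero]
    exact hbne
  have h3 : ∀ n, b < n → pat (n - j) = 0 := by
    intro n hn
    rw [← h1 n, hb0 n hn, hb0 (n - 6 * N) (by omega), hb0 (n - 18 * N) (by omega), add_zero,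
      add_zero]
  have h4 : ∀ n, n < a + 18 * N → pat (n - j) = 0 := by
    intro n hn
    rw [← h1 n, ha0 n (by omega), ha0 (n - 6 * N) (by omega), ha0 (n - 18 * N) (by omega),
      add_zero, add_zero]
  have h5 : pat (a + 18 * N - j) ≠ 0 := by
    rw [← h1 (a + 18 * N), ha0 (a + 18 * N) (by omega), ha0 (a + 18 * N - 6 * N) (by omega),
      zero_add, zero_add, add_sub_cancel_right]
    exact hane
  have h6 : b = 19 + j := by
    rw [pat_apply] at h2
    have h7 := h3 (19 + j)
    rw [pat_apply] at h7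
    simp only [ne_eq, ite_eq_right_iff, not_forall] at h2
    obtain ⟨h2, -⟩ := h2
    by_contra hc
    have h8 := h7 (by omega)
    rw [if_pos (by omega)] at h8
    exact one_ne_zero h8
  have h7 : a + 18 * N = j := by
    rw [pat_apply] at h5
    have h7 := h4 j
    rw [pat_apply] at h7
    simp only [ne_eq, ite_eq_right_iff, not_forall] at h5
    obtain ⟨h5, -⟩ := h5
    by_contra hc
    have h8 := h7 (by omega)
    rw [if_pos (by omega)] at h8
    exact one_ne_zero h8
  have hN1 : N = -1 := by omega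
  subst hN1
  have h8 := h1 (j + 6)
  rw [ha0 (j + 6) (by omega), ha0 (j + 6 - 6 * -1) (by omega), hb0 (j + 6 - 18 * -1) (by omega),
    pat_apply, if_pos (by omega)] at h8
  simp at h8

/-- Consequence: the set of the `l` with `ξ(T^{-l} q_*) = 1` is stable under the shift. -/
theorem xi_shift (x : Q) (N l : ℤ)
    (h : xi (sh (-(l - 6 * N)) (x + sh (6 * N) x + sh (18 * N) x)) = 1) :
    xi (sh (-l) (x + sh (6 * N) x + sh (18 * N) x)) = 1 := by
  rw [xi_eq_one] at h ⊢
  obtain ⟨i, hi, h⟩ := h
  have h1 : x + sh (6 * N) x + sh (18 * N) x = sh (l - 6 * N + i) pat := by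
    rw [← sh_sh, ← h, sh_sh, add_neg_cancel, sh_zero]
  have hN := pattern x N _ h1
  refine ⟨i - 6 * N, by omega, ?_⟩
  rw [h1, sh_sh]
  congr 1
  ring

/-- The group `K`. -/
@[ext]
structure K where
  q : Q
  l : ℤ
  e : Equiv.Perm (Fin 3)

namespace K

noncomputable instance : Mul K := ⟨fun x y => ⟨x.q + sh x.l y.q, x.l + y.l, x.e * y.e⟩⟩
instance : One K := ⟨⟨0, 0, 1⟩⟩
noncomputable instance : Inv K := ⟨fun x => ⟨-sh (-x.l) x.q, -x.l, x.e⁻¹⟩⟩

@[simp] theorem mul_q (x y : K) : (x * y).q = x.q + sh x.l y.q := rfl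
@[simp] theorem mul_l (x y : K) : (x * y).l = x.l + y.l := rfl
@[simp] theorem mul_e (x y : K) : (x * y).e = x.e * y.e := rfl
@[simp] theorem one_q : (1 : K).q = 0 := rfl
@[simp] theorem one_l : (1 : K).l = 0 := rfl
@[simp] theorem one_e : (1 : K).e = 1 := rfl
@[simp] theorem inv_q (x : K) : (x⁻¹).q = -sh (-x.l) x.q := rfl
@[simp] theorem inv_l (x : K) : (x⁻¹).l = -x.l := rfl
@[simp] theorem inv_e (x : K) : (x⁻¹).e = x.e⁻¹ := rfl

noncomputable instance : Group K :=
  Group.ofLeftAxioms
    (fun x y z => by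
      apply K.ext
      · simp only [mul_q, mul_l, sh_add, sh_sh, add_assoc]
      · simp only [mul_l, add_assoc]
      · simp only [mul_e, mul_assoc])
    (fun x => by
      apply K.ext
      · simp
      · simp
      · simp)
    (fun x => by
      apply K.ext
      · simp
      · simp
      · simp)

theorem comm_of {x y : K} (hx : x.l = 0) (hy : y.l = 0) (hx' : Equiv.Perm.sign x.e = 1)
    (hy' : Equiv.Perm.sign y.e = 1) : x * y = y * x := by
  have h1 : ∀ a b : Equiv.Perm (Fin 3), Equiv.Perm.sign a = 1 → Equiv.Perm.sign b = 1 →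
      a * b = b * a := by decide
  apply K.ext
  · simp only [mul_q, hx, hy, sh_zero, add_comm]
  · simp only [mul_l, hx, hy]
  · simp only [mul_e, h1 _ _ hx' hy']

/-- The homomorphism that detects `l` and the sign. -/
noncomputable def det : K →* Multiplicative ℤ × ℤˣ where
  toFun x := (Multiplicative.ofAdd x.l, Equiv.Perm.sign x.e)
  map_one' := rfl
  map_mul' x y := by
    simp

theorem mem_det {x : K} (h : det x = 1) : x.l = 0 ∧ Equiv.Perm.sign x.e = 1 := by
  rw [Prod.ext_iff] at h
  exact ⟨Multiplicative.ofAdd.injective h.1, h.2⟩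

theorem derivedSeries_two : derivedSeries K 2 = ⊥ := by
  have h1 : derivedSeries K 1 ≤ det.ker := by
    rw [derivedSeries_one]
    exact Abelianization.commutator_subset_ker det
  rw [derivedSeries_succ, Subgroup.commutator_eq_bot_iff_le_centralizer]
  intro x hx
  rw [Subgroup.mem_centralizer_iff]
  intro y hy
  obtain ⟨a1, a2⟩ := mem_det (h1 hx)
  obtain ⟨b1, b2⟩ := mem_det (h1 hy)
  exact comm_of b1 a1 b2 a2

end K

end Pool.Agent.Helper54.Hopf
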