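import Pool.Agent.Helper54.Hopf.Gam

/-!
# MP_b0f484_al: the module `M` and the final verification
-/

set_option autoImplicit false

namespace Pool.Agent.Helper54.Hopf

/-- The sign character. -/
def sg (v : ZMod 2) : ZMod 3 := if v = 0 then 1 else -1

theorem sg_add (v w : ZMod 2) : sg (v + w) = sg v * sg w := by
  revert v w
  decide

/-- The functions on `Γ` that transform by the character on the right. -/
noncomputable def Msub : AddSubgroup (Ga → ZMod 3) where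
  carrier := {φ | ∀ (x : Ga) (c : K → ZMod 2), φ ⟨x.a, x.c + c, x.k⟩ = sg (c x.k) * φ x}
  add_mem' := by
    intro φ ψ hφ hψ x c
    simp only [Pi.add_apply, hφ x c, hψ x c, mul_add]
  zero_mem' := by
    intro x c
    simp
  neg_mem' := by
    intro φ hφ x c
    simp only [Pi.neg_apply, hφ x c, mul_neg]

theorem smul_mem (g : Ga) (φ : Ga → ZMod 3) (hφ : φ ∈ Msub) :
    (fun x => φ (g⁻¹ * x)) ∈ Msub := by
  intro x c
  have h1 : g⁻¹ * (⟨x.a, x.c + c, x.k⟩ : Ga) =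
      ⟨(g⁻¹ * x).a, (g⁻¹ * x).c + (fun j => c (g.k * j)), (g⁻¹ * x).k⟩ := by
    apply Ga.ext
    · rfl
    · funext j
      simp only [Ga.mul_c, Ga.inv_k, inv_inv, Pi.add_apply]
      ring
    · rfl
  have h2 := hφ (g⁻¹ * x) (fun j => c (g.k * j))
  simp only [h1]
  rw [h2]
  simp

noncomputable instance : DistribMulAction Ga Msub where
  smul g φ := ⟨fun x => φ.1 (g⁻¹ * x), smul_mem g φ.1 φ.2⟩
  one_smul φ := by
    apply Subtype.ext
    funext x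
    change φ.1 (1⁻¹ * x) = φ.1 x
    rw [inv_one, one_mul]
  mul_smul g h φ := by
    apply Subtype.ext
    funext x
    change φ.1 ((g * h)⁻¹ * x) = φ.1 (h⁻¹ * (g⁻¹ * x))
    rw [mul_inv_rev, mul_assoc]
  smul_zero g := rfl
  smul_add g φ ψ := rfl

theorem smul_apply (g : Ga) (φ : Msub) (x : Ga) : (g • φ).1 x = φ.1 (g⁻¹ * x) := rfl

theorem ce_smul (c : K → ZMod 2) (φ : Msub) (x : Ga) :
    (Ga.ce c • φ).1 x = sg (c x.k) * φ.1 x := by
  rw [smul_apply, Ga.ce_inv, Ga.ce_mul']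
  exact φ.2 x c

/-- The function `c_W`. -/
noncomputable def cW (t : Fin 8 → Ga) (j : K) : ZMod 2 :=
  xi (sh (-j.l) (Ga.qs t)) * eps (j.e 0) (wa t).a

theorem wW_eq' (t : Fin 8 → Ga) : wW t = Ga.ce (cW t) := Ga.wW_eq t

theorem dM_val (t : Fin 8 → Ga) (φ : Msub) (x : Ga) :
    (dM Msub t φ).1 x =
      (1 - sg (cW t x.k)) * ((1 - sg (cW t ((t 0).k⁻¹ * x.k))) * φ.1 x) := by
  rw [dM_apply, wW_eq', Ga.conj_ce]
  have h1 : ∀ ψ χ : Msub, (ψ - χ).1 x = ψ.1 x - χ.1 x := fun _ _ => rfl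
  rw [h1, ce_smul, h1, ce_smul]
  ring

/-- The set `𝒟`. -/
def inD (t : Fin 8 → Ga) (k : K) : Prop := cW t k = 1 ∧ cW t ((t 0).k⁻¹ * k) = 1

open Classical in
theorem dM_val' (t : Fin 8 → Ga) (φ : Msub) (x : Ga) :
    (dM Msub t φ).1 x = if inD t x.k then φ.1 x else 0 := by
  have h1 : ∀ (u v : ZMod 2) (w : ZMod 3), (u = 1 ∧ v = 1) →
      (1 - sg u) * ((1 - sg v) * w) = w := by decide
  have h2 : ∀ (u v : ZMod 2) (w : ZMod 3), ¬ (u = 1 ∧ v = 1) →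
      (1 - sg u) * ((1 - sg v) * w) = 0 := by decide
  rw [dM_val]
  by_cases hD : inD t x.k
  · rw [if_pos hD]
    exact h1 _ _ _ hD
  · rw [if_neg hD]
    exact h2 _ _ _ hD

theorem cW_shift (t : Fin 8 → Ga) (k : K)
    (h : cW t ((ws t).k⁻¹ * k) = 1) : cW t k = 1 := by
  have h1 := Ga.ws_k t
  unfold cW at h ⊢
  rw [K.mul_l, K.mul_e, K.inv_l, K.inv_e, h1.1, h1.2] at h
  have h2 : ∀ u v : ZMod 2, u * v = 1 ↔ (u = 1 ∧ v = 1) := by decide
  rw [h2] at h ⊢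
  obtain ⟨h3, h4⟩ := h
  refine ⟨?_, ?_⟩
  · apply xi_shift _ (t 7).k.l
    rw [← h3, Ga.qs]
    congr 2
    ring
  · simpa using h4

theorem inD_shift (t : Fin 8 → Ga) (k : K) (h : inD t ((ws t).k⁻¹ * k)) : inD t k := by
  obtain ⟨h1, h2⟩ := h
  refine ⟨cW_shift t k h1, ?_⟩
  have h3 := Ga.ws_k t
  have h4 : cW t ((ws t).k⁻¹ * ((t 0).k⁻¹ * k)) = 1 := by
    rw [← h2]
    unfold cW
    simp only [K.mul_l, K.mul_e, K.inv_l, K.inv_e, h3.2, inv_one, one_mul]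
    congr 3
    ring
  exact cW_shift t _ h4

theorem dM_dM (t : Fin 8 → Ga) (φ : Msub) : dM Msub t (dM Msub t φ) = dM Msub t φ := by
  classical
  apply Subtype.ext
  funext x
  rw [dM_val', dM_val']
  split_ifs <;> rfl

theorem dM_ws (t : Fin 8 → Ga) (φ : Msub) :
    dM Msub t (ws t • dM Msub t φ) = ws t • dM Msub t φ := by
  classical
  apply Subtype.ext
  funext x
  rw [dM_val', smul_apply, dM_val']
  split_ifs with h1 h2
  · rfl
  · rfl
  · rename_i h2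
    exact absurd (inD_shift t x.k h2) h1
  · rfl

/-! ### The special tuple -/

/-- The special tuple. -/
noncomputable def t₀ : Fin 8 → Ga :=
  ![1, ⟨0, 0, ⟨0, 0, Equiv.swap 1 2⟩⟩, ⟨0, 0, ⟨0, 0, Equiv.swap 0 1⟩⟩,
    ⟨0, 0, ⟨0, 0, finRotate 3⟩⟩, ⟨Finsupp.single (0, 0) 1, 0, 1⟩,
    ⟨0, 0, ⟨0, 1, 1⟩⟩, ⟨0, 0, ⟨Finsupp.single 0 1, 0, 1⟩⟩, ⟨0, 0, ⟨0, 1, 1⟩⟩]

theorem t₀_wx : (wx t₀).k.q = Finsupp.single 0 1 + Finsupp.single 1 1 := by
  have h1 : (wx t₀).k = wx (fun i => (t₀ i).k) := map_wx Ga.pk t₀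
  have h2 : cm (⟨0, 1, 1⟩ : K) ⟨Finsupp.single 0 1, 0, 1⟩ =
      ⟨Finsupp.single 0 1 + Finsupp.single 1 1, 0, 1⟩ := by
    rw [cm, Ga.conj_q]
    apply K.ext
    · ext n
      simp only [K.mul_q, K.inv_q, sh_zero, neg_zero, Finsupp.add_apply, Finsupp.neg_apply,
        sh_apply, Finsupp.single_apply]
      split_ifs <;> first | omega | decide
    · simp
    · simp
  have h3 : cm (t₀ 5).k (t₀ 6).k = ⟨Finsupp.single 0 1 + Finsupp.single 1 1, 0, 1⟩ := h2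
  rw [h1, wx, h3]
  simp only [pow_succ, pow_zero, one_mul, K.mul_q, K.mul_l, sh_zero, add_zero]
  rw [q_add_self, zero_add]

theorem t₀_qs : Ga.qs t₀ = pat := by
  have h1 : (t₀ 7).k.l = 1 := rfl
  rw [Ga.qs, t₀_wx, h1]
  ext n
  simp only [Finsupp.add_apply, sh_apply, Finsupp.single_apply, pat_apply]
  split_ifs <;> first | omega | decide

theorem cm_a (x y : Ga) : (cm x y).a = x.a + ak x.k y.a - ak (x.k * y.k * x.k⁻¹) x.a -
    ak (x.k * y.k * x.k⁻¹ * y.k⁻¹) y.a := by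
  simp only [cm, Ga.mul_a, Ga.mul_k, Ga.inv_a, Ga.inv_k, map_neg, ak_mul]
  abel

theorem t₀_eps : eps 0 (wa t₀).a = 1 := by
  have h1 : (cm (t₀ 1) (t₀ 2)).a = 0 := by
    rw [cm_a]
    simp [t₀]
  have h2 : (cm (t₀ 3) (t₀ 4)).a = ak (t₀ 3).k (Finsupp.single (0, 0) 1) -
      Finsupp.single (0, 0) 1 := by
    have h3 : (t₀ 3).a = 0 := rfl
    have h4 : (t₀ 4).k = 1 := rfl
    have h5 : (t₀ 4).a = Finsupp.single (0, 0) 1 := rfl
    rw [cm_a, h3, h4, h5]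
    simp [ak_one]
  have h3 : (cm (t₀ 3) (t₀ 4)).k = 1 := by
    have h4 : (t₀ 4).k = 1 := rfl
    simp [cm, h4]
  have h4 : (cm (t₀ 1) (t₀ 2)).k.e⁻¹ = (finRotate 3)⁻¹ := by
    have h5 : (t₀ 1).k.e = Equiv.swap 1 2 := rfl
    have h6 : (t₀ 2).k.e = Equiv.swap 0 1 := rfl
    simp only [cm, Ga.mul_k, Ga.inv_k, K.mul_e, K.inv_e, h5, h6]
    decide
  have h5 : (t₀ 3).k.e = finRotate 3 := rfl
  have h6 : (finRotate 3)⁻¹ 0 = 2 := by decide
  have h7 : (finRotate 3)⁻¹ 2 = 1 := by decide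
  rw [wa, cm_a, h1, h2, h3]
  simp only [map_zero, inv_one, mul_one, mul_inv_cancel, ak_one, zero_add, sub_zero, map_sub,
    eps_ak, h4, h5, h6, h7, eps_single]
  decide

/-- The function that is not in the image. -/
noncomputable def m₀ : Msub := by
  classical
  exact ⟨fun x => if x.a = 0 ∧ x.k = 1 then sg (x.c 1) else 0, by
    intro x c
    simp only
    by_cases h : x.a = 0 ∧ x.k = 1
    · rw [if_pos h, if_pos h, h.2, Pi.add_apply, sg_add, mul_comm]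
    · rw [if_neg h, if_neg h, mul_zero]⟩

theorem m₀_one : m₀.1 1 = 1 := by
  unfold m₀
  simp [sg]

theorem not_surj (m : Msub) : m + (ws t₀ • dM Msub t₀ m - dM Msub t₀ m) ≠ m₀ := by
  classical
  intro h
  have h1 : (m + (ws t₀ • dM Msub t₀ m - dM Msub t₀ m)).1 1 = m₀.1 1 := by rw [h]
  rw [m₀_one] at h1
  have h2 : (m + (ws t₀ • dM Msub t₀ m - dM Msub t₀ m)).1 1 =
      m.1 1 + ((dM Msub t₀ m).1 ((ws t₀)⁻¹ * 1) - (dM Msub t₀ m).1 1) := rfl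
  rw [h2, dM_val', dM_val'] at h1
  have h3 : (t₀ 0).k = 1 := rfl
  have h4 : inD t₀ (1 : Ga).k := by
    have h5 : cW t₀ 1 = 1 := by
      unfold cW
      rw [t₀_qs, K.one_l, neg_zero, sh_zero, xi_pat, one_mul, K.one_e, Equiv.Perm.one_apply,
        t₀_eps]
    refine ⟨h5, ?_⟩
    rw [h3, inv_one, one_mul]
    exact h5
  have h5 : ¬ inD t₀ ((ws t₀)⁻¹ * 1 : Ga).k := by
    rintro ⟨h6, -⟩
    unfold cW at h6
    have h7 : ∀ u v : ZMod 2, u * v = 1 → u = 1 := by decide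
    have h8 := h7 _ _ h6
    have h9 : (ws t₀).k.l = 6 := (Ga.ws_k t₀).1
    rw [t₀_qs, mul_one, Ga.inv_k, K.inv_l, h9, neg_neg] at h8
    exact xi_sh_pat h8
  rw [if_pos h4, if_neg h5, zero_sub, add_neg_cancel] at h1
  exact zero_ne_one h1

/-- **The main theorem.** -/
theorem main :
    ∃ (L : Set (FreeGroup ℕ)) (d : ℕ),
      (∀ (G : Type) [Group G],
        (∀ w ∈ L, ∀ φ : FreeGroup ℕ →* G, φ w = 1) → derivedSeries G d = ⊥) ∧
      ∃ n : ℕ, ∃ f :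
        (FreeGroup (Fin n) ⧸ Subgroup.normalClosure
          {x : FreeGroup (Fin n) | ∃ w ∈ L, ∃ φ : FreeGroup ℕ →* FreeGroup (Fin n), φ w = x}) →*
        (FreeGroup (Fin n) ⧸ Subgroup.normalClosure
          {x : FreeGroup (Fin n) | ∃ w ∈ L, ∃ φ : FreeGroup ℕ →* FreeGroup (Fin n), φ w = x}),
        Function.Surjective f ∧ ¬ Function.Injective f :=
  criterion (Γ := Ga) (M := Msub) 4 Ga.derivedSeries_four Ga.om_eq_one dM_dM dM_ws
    ⟨t₀, m₀, rfl, not_surj⟩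

end Pool.Agent.Helper54.Hopf
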