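import Mathlib

/-!
# MP_b0f484_al: reduction of the frozen statement to word maps on one soluble group
-/

set_option autoImplicit false

open scoped commutatorElement

namespace Pool.Agent.Helper54.Hopf

/-- The map that sends the variables to the even / odd variables. -/
def emb (b : ℕ) : FreeGroup ℕ →* FreeGroup ℕ := FreeGroup.map (fun n => 2 * n + b)

theorem exists_common {G : Type*} [Group G] (φ₀ φ₁ : FreeGroup ℕ →* G) :
    ∃ φ : FreeGroup ℕ →* G, (∀ w, φ (emb 0 w) = φ₀ w) ∧ (∀ w, φ (emb 1 w) = φ₁ w) := by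
  refine ⟨FreeGroup.lift (fun n => if n % 2 = 0 then φ₀ (FreeGroup.of (n / 2))
    else φ₁ (FreeGroup.of (n / 2))), ?_, ?_⟩
  · intro w
    have : (FreeGroup.lift (fun n => if n % 2 = 0 then φ₀ (FreeGroup.of (n / 2))
        else φ₁ (FreeGroup.of (n / 2)))).comp (emb 0) = φ₀ := by
      ext n
      simp [emb]
    exact DFunLike.congr_fun this w
  · intro w
    have : (FreeGroup.lift (fun n => if n % 2 = 0 then φ₀ (FreeGroup.of (n / 2))
        else φ₁ (FreeGroup.of (n / 2)))).comp (emb 1) = φ₁ := by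
      ext n
      have h1 : (2 * n + 1) % 2 = 1 := by omega
      have h2 : (2 * n + 1) / 2 = n := by omega
      simp [emb, h1, h2]
    exact DFunLike.congr_fun this w

theorem mem_derivedSeries_lift (G : Type*) [Group G] (d : ℕ) :
    ∀ g ∈ derivedSeries G d, ∃ φ : FreeGroup ℕ →* G, ∃ w ∈ derivedSeries (FreeGroup ℕ) d,
      φ w = g := by
  induction d with
  | zero =>
    intro g _
    exact ⟨FreeGroup.lift (fun _ => g), FreeGroup.of 0, by simp, by simp⟩
  | succ d ih =>
    intro g hg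
    rw [derivedSeries_succ, Subgroup.commutator_def] at hg
    induction hg using Subgroup.closure_induction with
    | mem x hx =>
      obtain ⟨a, ha, b, hb, rfl⟩ := hx
      obtain ⟨φ₀, w₀, hw₀, h₀⟩ := ih a ha
      obtain ⟨φ₁, w₁, hw₁, h₁⟩ := ih b hb
      obtain ⟨φ, e₀, e₁⟩ := exists_common φ₀ φ₁
      refine ⟨φ, ⁅emb 0 w₀, emb 1 w₁⁆, ?_, ?_⟩
      · rw [derivedSeries_succ]
        exact Subgroup.commutator_mem_commutator
          (map_derivedSeries_le_derivedSeries (emb 0) d (Subgroup.mem_map_of_mem _ hw₀))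
          (map_derivedSeries_le_derivedSeries (emb 1) d (Subgroup.mem_map_of_mem _ hw₁))
      · rw [map_commutatorElement, e₀, e₁, h₀, h₁]
    | one => exact ⟨1, 1, Subgroup.one_mem _, map_one _⟩
    | mul x y _ _ hx hy =>
      obtain ⟨φ₀, w₀, hw₀, h₀⟩ := hx
      obtain ⟨φ₁, w₁, hw₁, h₁⟩ := hy
      obtain ⟨φ, e₀, e₁⟩ := exists_common φ₀ φ₁
      refine ⟨φ, emb 0 w₀ * emb 1 w₁, Subgroup.mul_mem _
        (map_derivedSeries_le_derivedSeries (emb 0) _ (Subgroup.mem_map_of_mem _ hw₀))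
        (map_derivedSeries_le_derivedSeries (emb 1) _ (Subgroup.mem_map_of_mem _ hw₁)), ?_⟩
      rw [map_mul, e₀, e₁, h₀, h₁]
    | inv x _ hx =>
      obtain ⟨φ₀, w₀, hw₀, h₀⟩ := hx
      exact ⟨φ₀, w₀⁻¹, Subgroup.inv_mem _ hw₀, by rw [map_inv, h₀]⟩

/-- The laws of `T`. -/
def laws (T : Type) [Group T] : Set (FreeGroup ℕ) := {w | ∀ ψ : FreeGroup ℕ →* T, ψ w = 1}

theorem laws_soluble (T : Type) [Group T] (d : ℕ) (hd : derivedSeries T d = ⊥)
    (G : Type) [Group G] (hG : ∀ w ∈ laws T, ∀ φ : FreeGroup ℕ →* G, φ w = 1) :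
    derivedSeries G d = ⊥ := by
  rw [eq_bot_iff]
  intro g hg
  obtain ⟨φ, w, hw, rfl⟩ := mem_derivedSeries_lift G d g hg
  rw [Subgroup.mem_bot]
  refine hG w ?_ φ
  intro ψ
  have h1 : ψ w ∈ derivedSeries T d :=
    map_derivedSeries_le_derivedSeries ψ d (Subgroup.mem_map_of_mem _ hw)
  rw [hd, Subgroup.mem_bot] at h1
  exact h1

/-- The verbal subgroup of the laws of `T` consists of the words killed by all homomorphisms
to `T`. -/
theorem mem_verbal_iff (T : Type) [Group T] (n : ℕ) (x : FreeGroup (Fin n)) :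
    x ∈ Subgroup.normalClosure
      {x : FreeGroup (Fin n) | ∃ w ∈ laws T, ∃ φ : FreeGroup ℕ →* FreeGroup (Fin n), φ w = x} ↔
    ∀ t : FreeGroup (Fin n) →* T, t x = 1 := by
  constructor
  · intro hx t
    have h1 : Subgroup.normalClosure
        {x : FreeGroup (Fin n) | ∃ w ∈ laws T, ∃ φ : FreeGroup ℕ →* FreeGroup (Fin n), φ w = x} ≤
        t.ker := by
      apply Subgroup.normalClosure_le_normal
      rintro y ⟨w, hw, φ, rfl⟩
      exact hw (t.comp φ)
    exact h1 hx
  · intro hx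
    apply Subgroup.subset_normalClosure
    refine ⟨FreeGroup.map (fun i : Fin n => (i : ℕ)) x, ?_,
      FreeGroup.lift (fun m => if h : m < n then FreeGroup.of ⟨m, h⟩ else 1), ?_⟩
    · intro ψ
      exact hx (ψ.comp (FreeGroup.map (fun i : Fin n => (i : ℕ))))
    · have : (FreeGroup.lift (fun m => if h : m < n then FreeGroup.of (⟨m, h⟩ : Fin n)
          else 1)).comp (FreeGroup.map (fun i : Fin n => (i : ℕ))) = MonoidHom.id _ := by
        ext i
        simp
      exact DFunLike.congr_fun this x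

/-- **Reduction.** -/
theorem exists_of_words (T : Type) [Group T] (d n : ℕ) (hd : derivedSeries T d = ⊥)
    (u v : FreeGroup (Fin n) →* FreeGroup (Fin n))
    (huv : ∀ t : FreeGroup (Fin n) →* T, (t.comp v).comp u = t)
    (hv : ∃ t₀ : FreeGroup (Fin n) →* T, ∀ t : FreeGroup (Fin n) →* T, t.comp v ≠ t₀) :
    ∃ (L : Set (FreeGroup ℕ)) (d : ℕ),
      (∀ (G : Type) [Group G],
        (∀ w ∈ L, ∀ φ : FreeGroup ℕ →* G, φ w = 1) → derivedSeries G d = ⊥) ∧
      ∃ n : ℕ, ∃ f :
        (FreeGroup (Fin n) ⧸ Subgroup.normalClosure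
          {x : FreeGroup (Fin n) | ∃ w ∈ L, ∃ φ : FreeGroup ℕ →* FreeGroup (Fin n), φ w = x}) →*
        (FreeGroup (Fin n) ⧸ Subgroup.normalClosure
          {x : FreeGroup (Fin n) | ∃ w ∈ L, ∃ φ : FreeGroup ℕ →* FreeGroup (Fin n), φ w = x}),
        Function.Surjective f ∧ ¬ Function.Injective f := by
  refine ⟨laws T, d, fun G _ hG => laws_soluble T d hd G hG, n, ?_⟩
  set N := Subgroup.normalClosure
    {x : FreeGroup (Fin n) | ∃ w ∈ laws T, ∃ φ : FreeGroup ℕ →* FreeGroup (Fin n), φ w = x}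
    with hN
  have key : ∀ x, x ∈ N ↔ ∀ t : FreeGroup (Fin n) →* T, t x = 1 := mem_verbal_iff T n
  have hmap : ∀ w : FreeGroup (Fin n) →* FreeGroup (Fin n), N ≤ N.comap w := by
    intro w x hx
    rw [Subgroup.mem_comap, key]
    intro t
    exact (key x).1 hx (t.comp w)
  have heq : ∀ x y : FreeGroup (Fin n),
      (QuotientGroup.mk x : FreeGroup (Fin n) ⧸ N) = QuotientGroup.mk y ↔
        ∀ t : FreeGroup (Fin n) →* T, t x = t y := by
    intro x y
    rw [QuotientGroup.eq, key]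
    constructor
    · intro h t
      have := h t
      rw [map_mul, map_inv, inv_mul_eq_one] at this
      exact this
    · intro h t
      rw [map_mul, map_inv, inv_mul_eq_one]
      exact h t
  have hfg : ∀ x, QuotientGroup.map N N v (hmap v) (QuotientGroup.map N N u (hmap u) x) = x := by
    intro x
    obtain ⟨x, rfl⟩ := QuotientGroup.mk_surjective x
    rw [QuotientGroup.map_mk, QuotientGroup.map_mk, heq]
    intro t
    exact DFunLike.congr_fun (huv t) x
  refine ⟨QuotientGroup.map N N v (hmap v), fun x => ⟨_, hfg x⟩, ?_⟩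
  intro hinj
  obtain ⟨t₀, ht₀⟩ := hv
  have hgf : ∀ x, QuotientGroup.map N N u (hmap u) (QuotientGroup.map N N v (hmap v) x) = x := by
    intro x
    exact hinj (hfg _)
  apply ht₀ (t₀.comp u)
  apply MonoidHom.ext
  intro x
  have h1 := hgf (QuotientGroup.mk x)
  rw [QuotientGroup.map_mk, QuotientGroup.map_mk, heq] at h1
  exact h1 t₀

end Pool.Agent.Helper54.Hopf
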