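import Pool.Agent.Helper54.Hopf.Reduction

/-!
# MP_b0f484_al: the words, and the abstract criterion
-/

set_option autoImplicit false

namespace Pool.Agent.Helper54.Hopf

section Words

variable {G H : Type*} [Group G] [Group H]

/-- The commutator. -/
def cm (x y : G) : G := x * y * x⁻¹ * y⁻¹

theorem map_cm (f : G →* H) (x y : G) : f (cm x y) = cm (f x) (f y) := by
  simp only [cm, map_mul, map_inv]

/-- The word `a`. -/
def wa (t : Fin 8 → G) : G := cm (cm (t 1) (t 2)) (cm (t 3) (t 4))

/-- The word `x`. -/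
def wx (t : Fin 8 → G) : G := cm (t 5) (t 6) ^ 3

/-- The word `s`. -/
def ws (t : Fin 8 → G) : G := t 7 ^ 6

/-- The word `x_*`. -/
def wxs (t : Fin 8 → G) : G :=
  wx t * (ws t * wx t * (ws t)⁻¹) * (ws t ^ 3 * wx t * (ws t ^ 3)⁻¹)

/-- The word `W`. -/
def wW (t : Fin 8 → G) : G := cm (wa t) (wxs t * wa t * (wxs t)⁻¹)

/-- The word `ω`. -/
def om (t : Fin 8 → G) : G := cm (cm (t 0) (wW t)) (wW t)

/-- The operator `δ`. -/
def dl (t : Fin 8 → G) (w : G) : G := cm (cm w (t 0 * wW t * (t 0)⁻¹)) (wW t)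

/-- The operator `β`. -/
def be (t : Fin 8 → G) (w : G) : G := dl t ((ws t)⁻¹ * dl t w * ws t) * w * (dl t w)⁻¹

/-- The operator `θ`. -/
def th (t : Fin 8 → G) (w : G) : G := w * (dl t (be t (cm (ws t) w)))⁻¹

/-- The word map `V`. -/
def vV (t : Fin 8 → G) : Fin 8 → G := Function.update t 0 (cm (ws t) (om t) * t 0)

/-- The word map `U`. -/
def uU (t : Fin 8 → G) : Fin 8 → G := Function.update t 0 ((cm (ws t) (th t (om t)))⁻¹ * t 0)

theorem map_wa (f : G →* H) (t : Fin 8 → G) : f (wa t) = wa (fun i => f (t i)) := by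
  simp only [wa, map_cm]

theorem map_wx (f : G →* H) (t : Fin 8 → G) : f (wx t) = wx (fun i => f (t i)) := by
  simp only [wx, map_cm, map_pow]

theorem map_ws (f : G →* H) (t : Fin 8 → G) : f (ws t) = ws (fun i => f (t i)) := by
  simp only [ws, map_pow]

theorem map_wxs (f : G →* H) (t : Fin 8 → G) : f (wxs t) = wxs (fun i => f (t i)) := by
  simp only [wxs, map_mul, map_inv, map_pow, map_wx, map_ws]

theorem map_wW (f : G →* H) (t : Fin 8 → G) : f (wW t) = wW (fun i => f (t i)) := by
  simp only [wW, map_cm, map_mul, map_inv, map_wxs, map_wa]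

theorem map_om (f : G →* H) (t : Fin 8 → G) : f (om t) = om (fun i => f (t i)) := by
  simp only [om, map_cm, map_wW]

theorem map_dl (f : G →* H) (t : Fin 8 → G) (w : G) :
    f (dl t w) = dl (fun i => f (t i)) (f w) := by
  simp only [dl, map_cm, map_wW, map_mul, map_inv]

theorem map_be (f : G →* H) (t : Fin 8 → G) (w : G) :
    f (be t w) = be (fun i => f (t i)) (f w) := by
  simp only [be, map_mul, map_inv, map_dl, map_ws]

theorem map_th (f : G →* H) (t : Fin 8 → G) (w : G) :
    f (th t w) = th (fun i => f (t i)) (f w) := by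
  simp only [th, map_mul, map_inv, map_dl, map_ws, map_be, map_cm]

theorem map_vV (f : G →* H) (t : Fin 8 → G) :
    (fun i => f (vV t i)) = vV (fun i => f (t i)) := by
  funext i
  by_cases hi : i = 0
  · subst hi
    simp only [vV, Function.update_self, map_mul, map_cm, map_ws, map_om]
  · simp only [vV, Function.update_of_ne hi]

theorem map_uU (f : G →* H) (t : Fin 8 → G) :
    (fun i => f (uU t i)) = uU (fun i => f (t i)) := by
  funext i
  by_cases hi : i = 0
  · subst hi
    simp only [uU, Function.update_self, map_mul, map_cm, map_ws, map_om, map_inv, map_th]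
  · simp only [uU, Function.update_of_ne hi]

theorem wa_update (t : Fin 8 → G) (y : G) : wa (Function.update t 0 y) = wa t := by
  simp [wa]

theorem wx_update (t : Fin 8 → G) (y : G) : wx (Function.update t 0 y) = wx t := by
  simp [wx]

theorem ws_update (t : Fin 8 → G) (y : G) : ws (Function.update t 0 y) = ws t := by
  simp [ws]

theorem wxs_update (t : Fin 8 → G) (y : G) : wxs (Function.update t 0 y) = wxs t := by
  simp [wxs, wx_update, ws_update]

theorem wW_update (t : Fin 8 → G) (y : G) : wW (Function.update t 0 y) = wW t := by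
  simp [wW, wxs_update, wa_update]

end Words

/-- The reduction in terms of tuple maps. -/
theorem exists_of_tuples (T : Type) [Group T] (d : ℕ) (hd : derivedSeries T d = ⊥)
    (huv : ∀ t : Fin 8 → T, uU (vV t) = t)
    (hv : ∃ t₀ : Fin 8 → T, ∀ t : Fin 8 → T, vV t ≠ t₀) :
    ∃ (L : Set (FreeGroup ℕ)) (d : ℕ),
      (∀ (G : Type) [Group G],
        (∀ w ∈ L, ∀ φ : FreeGroup ℕ →* G, φ w = 1) → derivedSeries G d = ⊥) ∧
      ∃ n : ℕ, ∃ f :
        (FreeGroup (Fin n) ⧸ Subgroup.normalClosure
          {x : FreeGroup (Fin n) | ∃ w ∈ L, ∃ φ : FreeGroup ℕ →* FreeGroup (Fin n), φ w = x}) →*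
        (FreeGroup (Fin n) ⧸ Subgroup.normalClosure
          {x : FreeGroup (Fin n) | ∃ w ∈ L, ∃ φ : FreeGroup ℕ →* FreeGroup (Fin n), φ w = x}),
        Function.Surjective f ∧ ¬ Function.Injective f := by
  have hV : ∀ (t : FreeGroup (Fin 8) →* T) (i : Fin 8),
      t ((FreeGroup.lift (vV (FreeGroup.of : Fin 8 → FreeGroup (Fin 8)))) (FreeGroup.of i)) =
        vV (fun i => t (FreeGroup.of i)) i := by
    intro t i
    rw [FreeGroup.lift_apply_of, ← map_vV t]
  refine exists_of_words T d 8 hd (FreeGroup.lift (uU (FreeGroup.of : Fin 8 → _)))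
    (FreeGroup.lift (vV (FreeGroup.of : Fin 8 → _))) ?_ ?_
  · intro t
    apply FreeGroup.ext_hom
    intro i
    rw [MonoidHom.comp_apply, FreeGroup.lift_apply_of]
    have h1 := congrFun (map_uU (t.comp (FreeGroup.lift
      (vV (FreeGroup.of : Fin 8 → FreeGroup (Fin 8))))) FreeGroup.of) i
    have h2 : (fun i => (t.comp (FreeGroup.lift
        (vV (FreeGroup.of : Fin 8 → FreeGroup (Fin 8))))) (FreeGroup.of i)) =
        vV (fun i => t (FreeGroup.of i)) := by
      funext j
      exact hV t j
    rw [h2, huv] at h1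
    exact h1
  · obtain ⟨t₀, ht₀⟩ := hv
    refine ⟨FreeGroup.lift t₀, ?_⟩
    intro t ht
    apply ht₀ (fun i => t (FreeGroup.of i))
    funext i
    rw [← hV t i]
    have := DFunLike.congr_fun ht (FreeGroup.of i)
    rw [FreeGroup.lift_apply_of] at this
    exact this

end Pool.Agent.Helper54.Hopf
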